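import Mathlib

/-!
# MP_c5669f_al: the modular derivation of a polynomial Poisson algebra in characteristic `p`
is a log-ozone derivation

Proof. Let `K = Frac P`, `C ⊆ K` the field of constants of all `∂/∂x_i`; `K` is finite over `C`.
1. (`nak`) Commuting `C`-linear operators on `K` which all kill `1` have a common nonzero
   functional vanishing on their images (Nakayama's lemma).
2. Choose coordinates `x_j`, `j ∈ J`, whose Hamiltonian fields are a `K`-basis of the span `L` of
   all Hamiltonian fields; the dual fields `E_i ∈ L`, `E_i x_j = δ_ij`, commute.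
3. (`pf`) The Pfaffian of `({x_i, x_j})_{i,j ∈ J}` turns all brackets into sums of `E_i`-images,
   hence `{K, K} ≠ K`: there is a nonzero functional `lam'` killing all brackets (`core`).
4. With `I` a nonzero functional killing all `∂_i K` (again 1.), `lam' = I(f ·)` for some `f ≠ 0`,
   and then `{x_l, f} = φ(x_l) f`. Multiplying `f` by a `p`-th power makes it a polynomial.
-/

set_option autoImplicit false
set_option linter.unusedSectionVars false

namespace Pool.Agent.Results.MP_c5669f_al.ModularLogOzone

section part1

open Matrix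




/-- Commuting operators with a common kernel vector have a common cokernel functional. -/
theorem nak {C V ι : Type*} [Field C] [AddCommGroup V] [Module C V] [FiniteDimensional C V]
    (E : ι → V →ₗ[C] V) (hc : ∀ i j y, E i (E j y) = E j (E i y)) (v : V) (hv : v ≠ 0)
    (hE : ∀ i, E i v = 0) :
    ∃ l : V →ₗ[C] C, l ≠ 0 ∧ ∀ i y, l (E i y) = 0 := by
  classical
  let E' : ι → Module.End C V := E
  let S : Subalgebra C (Module.End C V) := Algebra.adjoin C (Set.range E')
  have hcomm : ∀ a ∈ Set.range E', ∀ b ∈ Set.range E', a * b = b * a := by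
    rintro _ ⟨i, rfl⟩ _ ⟨j, rfl⟩
    ext y
    exact hc i j y
  letI : CommRing S := Algebra.adjoinCommRingOfComm C hcomm
  have hfin : Module.Finite S V := Module.Finite.of_restrictScalars_finite C S V
  let gen : ι → S := fun i => ⟨E' i, Algebra.subset_adjoin ⟨i, rfl⟩⟩
  let I : Ideal S := Ideal.span (Set.range gen)
  let W : Submodule C V := ⨆ i, LinearMap.range (E i)
  have hW : W ≠ ⊤ := by
    intro hW
    have hle : (⊤ : Submodule S V) ≤ I • (⊤ : Submodule S V) := by
      intro x _
      have hx : x ∈ W := by rw [hW]; trivial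
      induction hx using Submodule.iSup_induction' with
      | mem i y hy =>
        obtain ⟨z, rfl⟩ := hy
        have : (gen i) • z ∈ I • (⊤ : Submodule S V) :=
          Submodule.smul_mem_smul (Ideal.subset_span ⟨i, rfl⟩) trivial
        exact this
      | zero => exact Submodule.zero_mem _
      | add x y _ _ hx hy => exact Submodule.add_mem _ (hx trivial) (hy trivial)
    obtain ⟨r, hr1, hr2⟩ := Submodule.exists_sub_one_mem_and_smul_eq_zero_of_fg_of_le_smul I ⊤
      hfin.fg_top hle
    have hkill : ∀ s ∈ I, s • v = 0 := by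
      intro s hs
      induction hs using Submodule.span_induction with
      | mem x hx =>
        obtain ⟨i, rfl⟩ := hx
        exact hE i
      | zero => simp
      | add x y _ _ hx hy => rw [add_smul, hx, hy, add_zero]
      | smul a x _ hx => rw [smul_eq_mul, mul_smul, hx, smul_zero]
    have h1 := hkill _ hr1
    rw [sub_smul, one_smul, hr2 v trivial, zero_sub, neg_eq_zero] at h1
    exact hv h1
  obtain ⟨l, hl, hl2⟩ := Submodule.exists_le_ker_of_lt_top W (lt_top_iff_ne_top.mpr hW)
  refine ⟨l, hl, fun i y => ?_⟩
  have : E i y ∈ W := (le_iSup (fun i => LinearMap.range (E i)) i) ⟨y, rfl⟩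
  exact hl2 this

theorem tr_sym_alt {K κ : Type*} [Field K] [Fintype κ] [DecidableEq κ] (N W : Matrix κ κ K)
    (hN : ∀ i j, N i j = N j i) (hW0 : ∀ i, W i i = 0) (hW : ∀ i j, W i j = - W j i) :
    (W * N).trace = 0 := by
  simp only [Matrix.trace, Matrix.diag_apply, Matrix.mul_apply]
  rw [← Finset.sum_product']
  refine Finset.sum_involution (fun a _ => (a.2, a.1)) ?_ ?_ ?_ ?_
  · rintro ⟨i, j⟩ _
    simp only
    rw [hN j i, hW i j]; ring
  · rintro ⟨i, j⟩ _ h heq
    simp only [Prod.mk.injEq] at heq
    apply h
    simp only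
    rw [heq.1, hW0, zero_mul]
  · intro a _; simp
  · intro a _; rfl

theorem tr_sp {K κ : Type*} [Field K] [Fintype κ] [DecidableEq κ] (W S : Matrix κ κ K)
    (hW0 : ∀ i, W i i = 0) (hW : Wᵀ = - W) (hdet : IsUnit W.det)
    (h : S * W + W * Sᵀ = 0) : S.trace = 0 := by
  have h1 : W⁻¹ * S = (W⁻¹ * S)ᵀ := by
    rw [Matrix.transpose_mul, Matrix.transpose_nonsing_inv, hW]
    have h2 : (-W)⁻¹ = - W⁻¹ := by
      apply Matrix.inv_eq_right_inv
      rw [neg_mul_neg, Matrix.mul_nonsing_inv _ hdet]
    rw [h2]
    have h3 : W⁻¹ * (S * W + W * Sᵀ) * W⁻¹ = 0 := by rw [h]; simp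
    have h4 : W⁻¹ * (S * W + W * Sᵀ) * W⁻¹ = W⁻¹ * S + Sᵀ * W⁻¹ := by
      rw [mul_add, add_mul]
      congr 1
      · rw [Matrix.mul_assoc, Matrix.mul_assoc, Matrix.mul_nonsing_inv _ hdet, Matrix.mul_one]
      · rw [← Matrix.mul_assoc, Matrix.nonsing_inv_mul _ hdet, Matrix.one_mul]
    rw [h4] at h3
    rw [Matrix.mul_neg]
    exact eq_neg_of_add_eq_zero_left h3
  have h5 : (W * (W⁻¹ * S)).trace = 0 := by
    apply tr_sym_alt
    · intro i j
      exact congrFun (congrFun h1 i) j
    · exact hW0
    · intro i j
      exact congrFun (congrFun hW j) i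
  rwa [← Matrix.mul_assoc, Matrix.mul_nonsing_inv _ hdet, Matrix.one_mul] at h5

/-- Alternating invertible matrices are congruent to a matrix with entries 0, 1, -1. -/
theorem symp {K κ : Type*} [Field K] [Fintype κ] [DecidableEq κ] (G : Matrix κ κ K)
    (h0 : ∀ i, G i i = 0) (hs : ∀ i j, G i j = - G j i) (hdet : IsUnit G.det) :
    ∃ A : Matrix κ κ K, IsUnit A.det ∧
      ∀ i j, (A * G * Aᵀ) i j = 0 ∨ (A * G * Aᵀ) i j = 1 ∨ (A * G * Aᵀ) i j = -1 := by
  classical
  let B : (κ → K) →ₗ[K] (κ → K) →ₗ[K] K := Matrix.toLinearMap₂' K G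
  have hB : ∀ u v, B u v = u ⬝ᵥ (G *ᵥ v) := fun u v => Matrix.toLinearMap₂'_apply' G u v
  have hBs : ∀ u v, B u v = - B v u := by
    intro u v
    rw [hB, hB, Matrix.dotProduct_mulVec, ← Matrix.mulVec_transpose]
    have : Gᵀ = -G := by
      ext i j; simp [hs j i]
    rw [this, Matrix.neg_mulVec, neg_dotProduct, dotProduct_comm]
  have hB0 : ∀ u, B u u = 0 := by
    intro u
    rw [hB]
    simp only [dotProduct, Matrix.mulVec, Finset.mul_sum]
    rw [← Finset.sum_product']
    refine Finset.sum_involution (fun a _ => (a.2, a.1)) ?_ ?_ ?_ ?_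
    · rintro ⟨i, j⟩ _
      simp only
      rw [hs i j]; ring
    · rintro ⟨i, j⟩ _ h heq
      simp only [Prod.mk.injEq] at heq
      apply h
      simp only
      rw [heq.1, h0, zero_mul, mul_zero]
    · intro a _; simp
    · intro a _; rfl
  have hBnd : ∀ u, u ≠ 0 → ∃ w, B u w ≠ 0 := by
    intro u hu
    by_contra hcon
    push Not at hcon
    apply hu
    have h1 : u ᵥ* G = 0 := by
      ext j
      have := hcon (Pi.single j 1)
      rw [hB, Matrix.dotProduct_mulVec] at this
      simpa using this
    have h2 : (u ᵥ* G) ᵥ* G⁻¹ = 0 := by rw [h1]; simp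
    rwa [Matrix.vecMul_vecMul, Matrix.mul_nonsing_inv _ hdet, Matrix.vecMul_one] at h2
  let P : ℕ → Prop := fun r => ∃ e f : Fin r → (κ → K), (∀ i j, B (e i) (e j) = 0) ∧
    (∀ i j, B (f i) (f j) = 0) ∧ (∀ i j, B (e i) (f j) = if i = j then 1 else 0)
  have hPbound : ∀ r, P r → r ≤ Fintype.card κ := by
    rintro r ⟨e, f, _, _, hef⟩
    have hli : LinearIndependent K e := by
      rw [Fintype.linearIndependent_iff]
      intro g hg i
      have h1 : B (∑ i, g i • e i) (f i) = 0 := by rw [hg]; simp
      simpa [map_sum, LinearMap.sum_apply, hef] using h1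
    have := hli.fintype_card_le_finrank
    simpa using this
  have hex : ∃ r, ∃ e f : Fin r → (κ → K), (∀ i j, B (e i) (e j) = 0) ∧
    (∀ i j, B (f i) (f j) = 0) ∧ (∀ i j, B (e i) (f j) = if i = j then 1 else 0) ∧
    ∀ v, v = ∑ i, B v (f i) • e i - ∑ i, B v (e i) • f i := by
    by_contra hcon
    have hstep : ∀ r, P r → P (r+1) := by
      rintro r ⟨e, f, hee, hff, hef⟩
      have hfe : ∀ i j, B (f i) (e j) = if i = j then -1 else 0 := by
        intro i j
        rw [hBs, hef]
        by_cases h : i = j
        · subst h; simp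
        · have : ¬ j = i := fun h' => h h'.symm
          simp [h, this]
      have hv : ∃ v, v ≠ ∑ i, B v (f i) • e i - ∑ i, B v (e i) • f i := by
        by_contra hh
        push Not at hh
        exact hcon ⟨r, e, f, hee, hff, hef, hh⟩
      obtain ⟨v, hv⟩ := hv
      let pr : (κ → K) → (κ → K) := fun v => v - (∑ i, B v (f i) • e i - ∑ i, B v (e i) • f i)
      have hpe : ∀ v j, B (pr v) (e j) = 0 := by
        intro v j
        simp [pr, map_sub, map_sum, LinearMap.sum_apply, hee, hfe]
      have hpf : ∀ v j, B (pr v) (f j) = 0 := by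
        intro v j
        simp [pr, map_sub, map_sum, LinearMap.sum_apply, hff, hef]
      have hpv : pr v ≠ 0 := by
        intro h
        exact hv (sub_eq_zero.mp h)
      obtain ⟨w, hw⟩ := hBnd _ hpv
      have hpp : ∀ u w, B (pr u) (pr w) = B (pr u) w := by
        intro u w
        have h1 : pr w = w - (∑ i, B w (f i) • e i - ∑ i, B w (e i) • f i) := rfl
        rw [h1]
        simp [map_sub, map_sum, hpe, hpf]
      let w' := pr ((B (pr v) w)⁻¹ • w)
      have hvw : B (pr v) w' = 1 := by
        simp only [w']
        rw [hpp]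
        simp [hw]
      refine ⟨Fin.cons (pr v) e, Fin.cons w' f, ?_, ?_, ?_⟩
      · intro i j
        refine Fin.cases ?_ (fun i => ?_) i <;> refine Fin.cases ?_ (fun j => ?_) j
        · simp [hB0]
        · simp [hpe]
        · simp only [Fin.cons_succ, Fin.cons_zero]; rw [hBs, hpe, neg_zero]
        · simp [hee]
      · intro i j
        refine Fin.cases ?_ (fun i => ?_) i <;> refine Fin.cases ?_ (fun j => ?_) j
        · simp [hB0]
        · simp [w', hpf]
        · simp only [Fin.cons_succ, Fin.cons_zero]; rw [hBs, hpf, neg_zero]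
        · simp [hff]
      · intro i j
        refine Fin.cases ?_ (fun i => ?_) i <;> refine Fin.cases ?_ (fun j => ?_) j
        · simp [hvw]
        · simp only [Fin.cons_succ, Fin.cons_zero]
          rw [hpf]
          simp [Fin.ext_iff]
        · simp only [Fin.cons_succ, Fin.cons_zero]
          rw [hBs, hpe, neg_zero]
          simp [Fin.ext_iff]
        · simp [hef]
    have hall : ∀ r, P r := by
      intro r
      induction r with
      | zero => exact ⟨Fin.elim0, Fin.elim0, fun i => i.elim0, fun i => i.elim0, fun i => i.elim0⟩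
      | succ r ih => exact hstep r ih
    have := hPbound _ (hall (Fintype.card κ + 1))
    omega
  obtain ⟨r, e, f, hee, hff, hef, hspan⟩ := hex
  have hfe : ∀ i j, B (f i) (e j) = if i = j then -1 else 0 := by
    intro i j
    rw [hBs, hef]
    by_cases h : i = j
    · subst h; simp
    · have : ¬ j = i := fun h' => h h'.symm
      simp [h, this]
  let b : Fin r ⊕ Fin r → (κ → K) := Sum.elim e f
  have hb1 : LinearIndependent K b := by
    rw [Fintype.linearIndependent_iff]
    intro g hg
    have key : ∀ u, B (∑ i, g i • b i) u = 0 := fun u => by rw [hg]; simp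
    rw [Fintype.sum_sum_type] at key
    intro i
    rcases i with i | i
    · have := key (f i)
      simpa [b, map_sum, LinearMap.sum_apply, hef, hff] using this
    · have := key (e i)
      simpa [b, map_sum, LinearMap.sum_apply, hee, hfe] using this
  have hb2 : ⊤ ≤ Submodule.span K (Set.range b) := by
    intro v _
    rw [hspan v]
    refine Submodule.sub_mem _ (Submodule.sum_mem _ fun i _ => Submodule.smul_mem _ _ ?_)
      (Submodule.sum_mem _ fun i _ => Submodule.smul_mem _ _ ?_)
    · exact Submodule.subset_span ⟨Sum.inl i, rfl⟩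
    · exact Submodule.subset_span ⟨Sum.inr i, rfl⟩
  have hcard : Fintype.card κ = Fintype.card (Fin r ⊕ Fin r) := by
    have h1 := Module.finrank_eq_card_basis (Module.Basis.mk hb1 hb2)
    simpa using h1
  let σ := Fintype.equivOfCardEq hcard
  let A : Matrix κ κ K := Matrix.of (fun i => b (σ i))
  refine ⟨A, ?_, ?_⟩
  · rw [← Matrix.isUnit_iff_isUnit_det, ← Matrix.linearIndependent_rows_iff_isUnit]
    exact hb1.comp σ σ.injective
  · intro i j
    have h1 : (A * G * Aᵀ) i j = B (b (σ i)) (b (σ j)) := by
      rw [hB, Matrix.mul_assoc, Matrix.mul_apply]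
      simp only [dotProduct, Matrix.mulVec, Matrix.mul_apply, Matrix.transpose_apply, A,
        Matrix.of_apply]
    rw [h1]
    rcases σ i with s | s <;> rcases σ j with t | t
    · left; exact hee s t
    · simp only [b, Sum.elim_inl, Sum.elim_inr, hef]
      by_cases h : s = t <;> simp [h]
    · simp only [b, Sum.elim_inl, Sum.elim_inr, hfe]
      by_cases h : s = t <;> simp [h]
    · left; exact hff s t

end part1

section part2

open Matrix




section jacobi

variable {C L : Type*} [Field C] [Field L] [Algebra C L] {m : Type*} [Fintype m] [DecidableEq m]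

/-- the ring homomorphism into the dual numbers given by a derivation -/
def derHom (D : Derivation C L L) : L →+* DualNumber L where
  toFun x := TrivSqZeroExt.inl x + TrivSqZeroExt.inr (D x)
  map_one' := by simp
  map_zero' := by simp
  map_add' x y := by
    ext
    · simp
    · simp
  map_mul' x y := by
    ext
    · simp
    · simp [Derivation.leibniz, mul_comm]

lemma derHom_apply (D : Derivation C L L) (x : L) :
    derHom D x = TrivSqZeroExt.inl x + TrivSqZeroExt.inr (D x) := rfl

/-- Jacobi's formula (as in helper23's file) -/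
theorem jacobi (D : Derivation C L L) (X Y : Matrix m m L) (hXY : X * Y = 1) :
    D X.det = X.det * (Y * X.map D).trace := by
  let ι : L →+* DualNumber L := TrivSqZeroExt.inlHom L L
  let ε : DualNumber L := TrivSqZeroExt.inr 1
  have hε : ε ^ 2 = 0 := by
    rw [pow_two]; exact TrivSqZeroExt.inr_mul_inr L 1 1
  have h1 : (derHom D).mapMatrix X = ι.mapMatrix X * (1 + ε • ι.mapMatrix (Y * X.map D)) := by
    rw [mul_add, mul_one, Matrix.mul_smul, ← map_mul, ← mul_assoc, hXY, one_mul]
    ext i j
    · simp [derHom_apply, ι, ε]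
    · simp [derHom_apply, ι, ε]
  have h2 := congrArg Matrix.det h1
  rw [Matrix.det_mul, Matrix.det_one_add_smul, hε, mul_zero, add_zero, ← RingHom.map_det,
    ← RingHom.map_det] at h2
  have h3 : (ι.mapMatrix (Y * X.map D)).trace = ι (Y * X.map D).trace := by
    rw [Matrix.trace, Matrix.trace, map_sum]
    rfl
  rw [h3] at h2
  have h4 := congrArg TrivSqZeroExt.snd h2
  simpa [derHom_apply, ι, ε] using h4

theorem map_mul_der (D : Derivation C L L) (X Y : Matrix m m L) :
    (X * Y).map D = X.map D * Y + X * Y.map D := by
  ext i j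
  simp only [Matrix.map_apply, Matrix.mul_apply, Matrix.add_apply, map_sum, Derivation.leibniz,
    smul_eq_mul, ← Finset.sum_add_distrib]
  refine Finset.sum_congr rfl fun s _ => by ring

/-- A Pfaffian: its logarithmic derivative is minus the trace. -/
theorem pf (G : Matrix m m L) (h0 : ∀ i, G i i = 0) (hs : ∀ i j, G i j = - G j i)
    (hdet : IsUnit G.det) :
    ∃ a : L, a ≠ 0 ∧ ∀ (D : Derivation C L L) (c : Matrix m m L),
      G.map D = c * G + G * cᵀ → D a = - c.trace * a := by
  obtain ⟨A, hA, hAG⟩ := symp G h0 hs hdet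
  refine ⟨A.det, hA.ne_zero, ?_⟩
  intro D c hc
  have hGT : Gᵀ = - G := by ext i j; simp [hs j i]
  set W := A * G * Aᵀ with hW
  have hWdet : IsUnit W.det := by
    rw [hW, Matrix.det_mul, Matrix.det_mul, Matrix.det_transpose]
    exact (hA.mul hdet).mul hA
  have hWT : Wᵀ = - W := by
    rw [hW, Matrix.transpose_mul, Matrix.transpose_mul, Matrix.transpose_transpose, hGT]
    simp [Matrix.mul_assoc]
  have hW0 : ∀ i, W i i = 0 := by
    intro i
    rw [hW, Matrix.mul_apply]
    simp only [Matrix.mul_apply, Matrix.transpose_apply, Finset.sum_mul]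
    rw [← Finset.sum_product']
    refine Finset.sum_involution (fun a _ => (a.2, a.1)) ?_ ?_ ?_ ?_
    · rintro ⟨s, t⟩ _
      simp only
      rw [hs s t]; ring
    · rintro ⟨s, t⟩ _ h heq
      simp only [Prod.mk.injEq] at heq
      apply h
      simp only
      rw [heq.1, h0, mul_zero, zero_mul]
    · intro a _; simp
    · intro a _; rfl
  have hDW : W.map D = 0 := by
    ext i j
    rw [Matrix.map_apply, Matrix.zero_apply]
    rcases hAG i j with h | h | h
    · rw [h, map_zero]
    · rw [h, Derivation.map_one_eq_zero]
    · rw [h, map_neg, Derivation.map_one_eq_zero, neg_zero]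
  have hAT : (Aᵀ).map D = (A.map D)ᵀ := by ext i j; simp
  have h1 : (A.map D + A * c) * G * Aᵀ + A * G * (A.map D + A * c)ᵀ = 0 := by
    have h2 := hDW
    rw [hW, map_mul_der, map_mul_der, hc, hAT] at h2
    rw [← h2, Matrix.transpose_add, Matrix.transpose_mul]
    simp only [Matrix.mul_add, Matrix.add_mul, Matrix.mul_assoc]
    abel
  have hAi : A⁻¹ * A = 1 := Matrix.nonsing_inv_mul _ hA
  have hAi' : A * A⁻¹ = 1 := Matrix.mul_nonsing_inv _ hA
  set S := (A.map D + A * c) * A⁻¹ with hS
  have h3 : S * W + W * Sᵀ = 0 := by
    rw [← h1]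
    congr 1
    · rw [hS, hW, ← Matrix.mul_assoc, ← Matrix.mul_assoc, Matrix.mul_assoc _ A⁻¹ A, hAi,
        Matrix.mul_one]
    · rw [hS, hW, Matrix.transpose_mul, Matrix.mul_assoc (A * G), ← Matrix.mul_assoc Aᵀ,
        ← Matrix.transpose_mul, hAi, Matrix.transpose_one, Matrix.one_mul]
  have h4 := tr_sp W S hW0 hWT hWdet h3
  rw [hS, Matrix.add_mul, Matrix.trace_add, Matrix.trace_mul_comm (A * c), ← Matrix.mul_assoc,
    hAi, Matrix.one_mul, Matrix.trace_mul_comm] at h4
  rw [jacobi D A A⁻¹ hAi']
  have h5 : (A⁻¹ * A.map D).trace = - c.trace := eq_neg_of_add_eq_zero_left h4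
  rw [h5]; ring

end jacobi

section core

variable {C K : Type*} [Field C] [Field K] [Algebra C K] {n : ℕ}

/-- the vector field with given coefficients -/
noncomputable def DD (d : Fin n → Derivation C K K) (v : Fin n → K) : Derivation C K K :=
  ∑ s, v s • d s

theorem DD_apply (d : Fin n → Derivation C K K) (v : Fin n → K) (y : K) :
    DD d v y = ∑ s, v s * d s y := by
  rw [DD]
  have : (∑ s, v s • d s : Derivation C K K) y = ∑ s, (v s • d s : Derivation C K K) y := by
    rw [← Derivation.coeFnAddMonoidHom_apply, map_sum, Finset.sum_apply]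
    rfl
  rw [this]
  rfl

/-- bracket of coefficient vectors -/
noncomputable def bk (d : Fin n → Derivation C K K) (v w : Fin n → K) : Fin n → K :=
  fun j => DD d v (w j) - DD d w (v j)

theorem DD_bk (d : Fin n → Derivation C K K) (hcomm : ∀ i j y, d i (d j y) = d j (d i y))
    (v w : Fin n → K) (y : K) :
    DD d v (DD d w y) - DD d w (DD d v y) = DD d (bk d v w) y := by
  have h1 : ∀ v w : Fin n → K, DD d v (DD d w y) =
      ∑ s, DD d v (w s) * d s y + ∑ s, ∑ t, v s * w t * d s (d t y) := by
    intro v w
    rw [DD_apply d w y, map_sum, Finset.sum_comm, ← Finset.sum_add_distrib]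
    refine Finset.sum_congr rfl fun t _ => ?_
    rw [Derivation.leibniz, smul_eq_mul, smul_eq_mul, DD_apply d v (d t y), Finset.mul_sum,
      add_comm, mul_comm (d t y)]
    congr 1
    refine Finset.sum_congr rfl fun s _ => by ring
  rw [h1 v w, h1 w v, DD_apply]
  have h2 : ∑ s, ∑ t, v s * w t * d s (d t y) = ∑ s, ∑ t, w s * v t * d s (d t y) := by
    rw [Finset.sum_comm]
    refine Finset.sum_congr rfl fun s _ => Finset.sum_congr rfl fun t _ => ?_
    rw [hcomm t s]; ring
  rw [h2]
  simp only [bk, sub_mul, Finset.sum_sub_distrib]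
  ring

end core

end part2

section part3

open Matrix




section core2

variable {C K : Type*} [Field C] [Field K] [Algebra C K] {n : ℕ}

theorem DD_add (d : Fin n → Derivation C K K) (v w : Fin n → K) (y : K) :
    DD d (v + w) y = DD d v y + DD d w y := by
  simp only [DD_apply, Pi.add_apply, add_mul, Finset.sum_add_distrib]

theorem DD_smul (d : Fin n → Derivation C K K) (f : K) (v : Fin n → K) (y : K) :
    DD d (f • v) y = f * DD d v y := by
  simp only [DD_apply, Pi.smul_apply, smul_eq_mul, Finset.mul_sum, mul_assoc]

theorem DD_zero (d : Fin n → Derivation C K K) (y : K) : DD d 0 y = 0 := by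
  simp [DD_apply]

theorem DD_sum {κ : Type*} (d : Fin n → Derivation C K K) (s : Finset κ) (v : κ → Fin n → K)
    (y : K) : DD d (∑ i ∈ s, v i) y = ∑ i ∈ s, DD d (v i) y := by
  classical
  induction s using Finset.induction_on with
  | empty => simp [DD_zero]
  | insert a s ha ih => rw [Finset.sum_insert ha, Finset.sum_insert ha, DD_add, ih]

theorem bk_add_left (d : Fin n → Derivation C K K) (v v' w : Fin n → K) :
    bk d (v + v') w = bk d v w + bk d v' w := by
  ext j
  simp only [bk, DD_add, Pi.add_apply, map_add]
  ring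

theorem bk_swap (d : Fin n → Derivation C K K) (v w : Fin n → K) :
    bk d v w = - bk d w v := by
  ext j
  simp only [bk, Pi.neg_apply]
  ring

theorem bk_smul_left (d : Fin n → Derivation C K K) (f : K) (v w : Fin n → K) :
    bk d (f • v) w = f • bk d v w - (DD d w f) • v := by
  ext j
  simp only [bk, DD_smul, Pi.sub_apply, Pi.smul_apply, smul_eq_mul, Derivation.leibniz]
  ring

theorem bk_closed (d : Fin n → Derivation C K K) {ι : Type*} (G : ι → Fin n → K)
    (hgen : ∀ l m, bk d (G l) (G m) ∈ Submodule.span K (Set.range G))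
    (v w : Fin n → K) (hv : v ∈ Submodule.span K (Set.range G))
    (hw : w ∈ Submodule.span K (Set.range G)) : bk d v w ∈ Submodule.span K (Set.range G) := by
  have h1 : ∀ m, ∀ v ∈ Submodule.span K (Set.range G),
      bk d v (G m) ∈ Submodule.span K (Set.range G) := by
    intro m v hv
    induction hv using Submodule.span_induction with
    | mem x hx =>
      obtain ⟨l, rfl⟩ := hx
      exact hgen l m
    | zero =>
      have : bk d 0 (G m) = 0 := by
        ext j
        simp [bk, DD_zero]
      rw [this]; exact Submodule.zero_mem _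
    | add x y _ _ hx hy => rw [bk_add_left]; exact Submodule.add_mem _ hx hy
    | smul a x hx' hx =>
      rw [bk_smul_left]
      exact Submodule.sub_mem _ (Submodule.smul_mem _ _ hx) (Submodule.smul_mem _ _ hx')
  induction hw using Submodule.span_induction with
  | mem x hx =>
    obtain ⟨m, rfl⟩ := hx
    exact h1 m v hv
  | zero =>
    have : bk d v 0 = 0 := by
      ext j
      simp [bk, DD_zero]
    rw [this]; exact Submodule.zero_mem _
  | add x y _ _ hx hy =>
    rw [bk_swap, bk_add_left, ← Submodule.neg_mem_iff, neg_neg]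
    refine Submodule.add_mem _ ?_ ?_
    · rw [bk_swap]; exact Submodule.neg_mem _ hx
    · rw [bk_swap]; exact Submodule.neg_mem _ hy
  | smul a x hx' hx =>
    rw [bk_swap, bk_smul_left, ← Submodule.neg_mem_iff, neg_neg]
    refine Submodule.sub_mem _ (Submodule.smul_mem _ _ ?_) (Submodule.smul_mem _ _ hx')
    rw [bk_swap]; exact Submodule.neg_mem _ hx

theorem core [FiniteDimensional C K] (d : Fin n → Derivation C K K)
    (hcomm : ∀ i j y, d i (d j y) = d j (d i y))
    (G : Fin n → Fin n → K) (h0 : ∀ i, G i i = 0) (hs : ∀ i j, G i j = - G j i)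
    (hJ : ∀ l i j, DD d (G l) (G i j) + DD d (G i) (G j l) + DD d (G j) (G l i) = 0) :
    ∃ f : K, f ≠ 0 ∧ ∀ l, DD d (G l) f = -(∑ s, d s (G l s)) * f := by
  classical
  obtain ⟨κ, a, hinj, hspan, hli⟩ := exists_linearIndependent' K G
  haveI : Fintype κ := Fintype.ofInjective a hinj
  set R := Submodule.span K (Set.range G) with hR
  let Γ : Matrix κ κ K := Matrix.of fun i j => G (a i) (a j)
  have hΓ : ∀ i j, Γ i j = G (a i) (a j) := fun i j => rfl
  have hGR : ∀ l, G l ∈ R := fun l => Submodule.subset_span ⟨l, rfl⟩
  have hmem : ∀ v ∈ R, ∃ g : κ → K, ∑ i, g i • G (a i) = v := by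
    intro v hv
    rw [← hspan] at hv
    exact (Submodule.mem_span_range_iff_exists_fun K).mp hv
  have keyL : ∀ v ∈ R, (∀ j, v (a j) = 0) → v = 0 := by
    intro v hv hvj
    obtain ⟨g, hg⟩ := hmem v hv
    ext l
    obtain ⟨c, hc⟩ := hmem (G l) (hGR l)
    have hva : ∀ j, ∑ i, g i * G (a i) (a j) = 0 := by
      intro j
      have := hvj j
      rw [← hg] at this
      simpa [Finset.sum_apply] using this
    have h1 : v l = ∑ i, g i * G (a i) l := by
      rw [← hg]; simp [Finset.sum_apply]
    have h2 : ∀ i, G l (a i) = ∑ j, c j * G (a j) (a i) := by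
      intro i
      rw [← hc]; simp [Finset.sum_apply]
    rw [h1, Pi.zero_apply]
    calc ∑ i, g i * G (a i) l = ∑ i, g i * ∑ j, c j * G (a i) (a j) := by
          refine Finset.sum_congr rfl fun i _ => ?_
          rw [hs (a i) l, h2 i, ← Finset.sum_neg_distrib]
          congr 1
          refine Finset.sum_congr rfl fun j _ => ?_
          rw [hs (a j) (a i)]; ring
      _ = ∑ j, c j * ∑ i, g i * G (a i) (a j) := by
          simp only [Finset.mul_sum]
          rw [Finset.sum_comm]
          refine Finset.sum_congr rfl fun j _ => Finset.sum_congr rfl fun i _ => by ring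
      _ = 0 := by simp [hva]
  have hdet : IsUnit Γ.det := by
    rw [isUnit_iff_ne_zero]
    intro hd
    obtain ⟨g, hg0, hg⟩ := Matrix.exists_vecMul_eq_zero_iff.mpr hd
    apply hg0
    have h1 : ∑ i, g i • G (a i) = 0 := by
      apply keyL
      · exact Submodule.sum_mem _ fun i _ => Submodule.smul_mem _ _ (hGR _)
      · intro j
        have := congrFun hg j
        simpa [Matrix.vecMul, dotProduct, Finset.sum_apply, hΓ] using this
    ext i
    exact Fintype.linearIndependent_iff.mp hli g h1 i
  let e : κ → Fin n → K := fun i => ∑ j, Γ⁻¹ i j • G (a j)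
  have heR : ∀ i, e i ∈ R := fun i =>
    Submodule.sum_mem _ fun j _ => Submodule.smul_mem _ _ (hGR _)
  have hea : ∀ i l, e i (a l) = if i = l then 1 else 0 := by
    intro i l
    have h1 : e i (a l) = (Γ⁻¹ * Γ) i l := by
      simp [e, Matrix.mul_apply, Finset.sum_apply, hΓ]
    rw [h1, Matrix.nonsing_inv_mul _ hdet, Matrix.one_apply]
  have hexp : ∀ v ∈ R, v = ∑ i, v (a i) • e i := by
    intro v hv
    rw [← sub_eq_zero]
    apply keyL
    · exact Submodule.sub_mem _ hv (Submodule.sum_mem _ fun i _ => Submodule.smul_mem _ _ (heR i))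
    · intro j
      simp [Finset.sum_apply, hea]
  have hgen : ∀ l m, bk d (G l) (G m) ∈ R := by
    intro l m
    have : bk d (G l) (G m) = ∑ s, d s (G l m) • G s := by
      ext j
      have h1 := hJ l m j
      have h2 : DD d (G m) (G j l) = - DD d (G m) (G l j) := by rw [hs j l, map_neg]
      have h3 : DD d (G j) (G l m) = - ∑ s, d s (G l m) * G s j := by
        rw [DD_apply, ← Finset.sum_neg_distrib]
        refine Finset.sum_congr rfl fun s _ => ?_
        rw [hs j s]; ring
      simp only [bk, Finset.sum_apply, Pi.smul_apply, smul_eq_mul]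
      rw [h2, h3] at h1
      linear_combination h1
    rw [this]
    exact Submodule.sum_mem _ fun s _ => Submodule.smul_mem _ _ (hGR s)
  have hecomm : ∀ i j y, DD d (e i) (DD d (e j) y) = DD d (e j) (DD d (e i) y) := by
    intro i j y
    have h1 : bk d (e i) (e j) = 0 := by
      apply keyL
      · exact bk_closed d G hgen _ _ (heR i) (heR j)
      · intro l
        simp only [bk, hea]
        have h2 : ∀ (D : Derivation C K K) (p : Prop) [Decidable p],
            D (if p then (1 : K) else 0) = 0 := by
          intro D p _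
          split_ifs <;> simp
        rw [h2, h2, sub_zero]
    have h2 := DD_bk d hcomm (e i) (e j) y
    rw [h1, DD_zero] at h2
    exact sub_eq_zero.mp h2
  have hDDe : ∀ v ∈ R, ∀ y, DD d v y = ∑ i, v (a i) * DD d (e i) y := by
    intro v hv y
    conv_lhs => rw [hexp v hv]
    rw [DD_sum]
    refine Finset.sum_congr rfl fun i _ => ?_
    rw [DD_smul]
  -- the Pfaffian
  obtain ⟨dA, hdA, hpf⟩ := pf (C := C) Γ (fun i => h0 _) (fun i j => hs _ _) hdet
  have hdAl : ∀ l, DD d (G l) dA = - (∑ i, DD d (e i) (G l (a i))) * dA := by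
    intro l
    let c : Matrix κ κ K := Matrix.of fun i s => DD d (e s) (G l (a i))
    have hc : c.trace = ∑ i, DD d (e i) (G l (a i)) := rfl
    rw [← hc]
    apply hpf
    ext i j
    rw [Matrix.map_apply, Matrix.add_apply, Matrix.mul_apply, Matrix.mul_apply]
    simp only [Matrix.transpose_apply, c, Matrix.of_apply, hΓ]
    have h1 := hJ l (a i) (a j)
    rw [hs (a j) l, map_neg, hDDe (G (a i)) (hGR _), hDDe (G (a j)) (hGR _) (G l (a i))] at h1
    have h2 : ∑ s, G (a j) (a s) * DD d (e s) (G l (a i)) =
        - ∑ s, DD d (e s) (G l (a i)) * G (a s) (a j) := by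
      rw [← Finset.sum_neg_distrib]
      refine Finset.sum_congr rfl fun s _ => ?_
      rw [hs (a j) (a s)]; ring
    rw [h2] at h1
    linear_combination h1
  -- the functionals
  obtain ⟨lam, hlam0, hlam⟩ := nak (C := C) (V := K) (fun i : κ => (DD d (e i)).toLinearMap)
    (fun i j y => hecomm i j y) 1 one_ne_zero (fun i => (DD d (e i)).map_one_eq_zero)
  obtain ⟨I, hI0, hI⟩ := nak (C := C) (V := K) (fun i : Fin n => (d i).toLinearMap)
    (fun i j y => hcomm i j y) 1 one_ne_zero (fun i => (d i).map_one_eq_zero)
  have hlam' : ∀ i y, lam (DD d (e i) y) = 0 := hlam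
  have hI' : ∀ i y, I (d i y) = 0 := hI
  let lam' : Module.Dual C K := lam ∘ₗ LinearMap.mulLeft C dA
  have hlamH : ∀ l h, lam' (DD d (G l) h) = 0 := by
    intro l h
    have h1 : dA * DD d (G l) h = ∑ i, DD d (e i) (G l (a i) * (h * dA)) := by
      have h2 : ∑ i, DD d (e i) (G l (a i) * (h * dA)) =
          ∑ i, G l (a i) * DD d (e i) (h * dA) + (h * dA) * ∑ i, DD d (e i) (G l (a i)) := by
        rw [Finset.mul_sum, ← Finset.sum_add_distrib]
        refine Finset.sum_congr rfl fun i _ => ?_
        rw [Derivation.leibniz, smul_eq_mul, smul_eq_mul]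
      rw [h2, ← hDDe (G l) (hGR l), Derivation.leibniz, smul_eq_mul, smul_eq_mul, hdAl]
      ring
    change lam (dA * DD d (G l) h) = 0
    rw [h1, map_sum]
    exact Finset.sum_eq_zero fun i _ => hlam' _ _
  have hlam'0 : lam' ≠ 0 := by
    intro h
    apply hlam0
    ext y
    have h1 : lam' (dA⁻¹ * y) = lam y := by
      change lam (dA * (dA⁻¹ * y)) = lam y
      rw [mul_inv_cancel_left₀ hdA]
    rw [← h1, h]; rfl
  -- representation by the form I(fh)
  let Φ : K →ₗ[C] Module.Dual C K := (LinearMap.mul C K).compr₂ I
  have hΦ : ∀ f h, Φ f h = I (f * h) := fun f h => rfl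
  have hnd : ∀ y, (∀ h, I (y * h) = 0) → y = 0 := by
    intro y hy
    by_contra hy0
    apply hI0
    ext z
    have := hy (y⁻¹ * z)
    rwa [mul_inv_cancel_left₀ hy0] at this
  have hΦinj : Function.Injective Φ := by
    rw [injective_iff_map_eq_zero]
    intro y hy
    apply hnd
    intro h
    rw [← hΦ, hy]; rfl
  have hΦsurj : Function.Surjective Φ :=
    (LinearMap.injective_iff_surjective_of_finrank_eq_finrank
      (Subspace.dual_finrank_eq (K := C) (V := K)).symm).mp hΦinj
  obtain ⟨f, hf⟩ := hΦsurj lam'
  have hf' : ∀ h, I (f * h) = lam' h := fun h => by rw [← hf]; rfl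
  refine ⟨f, ?_, ?_⟩
  · rintro rfl
    apply hlam'0
    ext h
    rw [← hf' h]; simp
  · intro l
    rw [← sub_eq_zero]
    apply hnd
    intro h
    have h1 : I (f * DD d (G l) h) = 0 := by rw [hf', hlamH]
    have h2 : ∀ y, I (DD d (G l) y) = - I ((∑ s, d s (G l s)) * y) := by
      intro y
      have h3 : DD d (G l) y = ∑ s, d s (G l s * y) - (∑ s, d s (G l s)) * y := by
        rw [DD_apply, Finset.sum_mul, ← Finset.sum_sub_distrib]
        refine Finset.sum_congr rfl fun s _ => ?_
        rw [Derivation.leibniz, smul_eq_mul, smul_eq_mul]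
        ring
      rw [h3, map_sub, map_sum, Finset.sum_eq_zero (fun s _ => hI' s _), zero_sub]
    have h4 : DD d (G l) (f * h) = f * DD d (G l) h + h * DD d (G l) f := by
      rw [Derivation.leibniz, smul_eq_mul, smul_eq_mul]
    have h5 := h2 (f * h)
    rw [h4, map_add, h1, zero_add] at h5
    have h6 : (DD d (G l) f - -(∑ s, d s (G l s)) * f) * h =
        h * DD d (G l) f + (∑ s, d s (G l s)) * (f * h) := by ring
    rw [h6, map_add, h5]
    ring

end core2

end part3

section part4

open MvPolynomial




section defs

variable {k : Type*} [Field k] {n : ℕ}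

/-- A Poisson bracket on the polynomial ring: a `k`-bilinear Lie bracket such that every
`{a, -}` is a derivation. -/
structure IsPoisson (br : MvPolynomial (Fin n) k → MvPolynomial (Fin n) k →
    MvPolynomial (Fin n) k) : Prop where
  add_left : ∀ a b c, br (a + b) c = br a c + br b c
  smul_left : ∀ (r : k) a b, br (r • a) b = r • br a b
  add_right : ∀ a b c, br a (b + c) = br a b + br a c
  smul_right : ∀ (r : k) a b, br a (r • b) = r • br a b
  alternating : ∀ a, br a a = 0
  jacobi : ∀ a b c, br a (br b c) + br b (br c a) + br c (br a b) = 0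
  leibniz : ∀ a b c, br a (b * c) = b * br a c + br a b * c

/-- `f` is Poisson normal: nonzero and `{a, f} ∈ f P` for all `a`. -/
def IsPoissonNormal (br : MvPolynomial (Fin n) k → MvPolynomial (Fin n) k →
    MvPolynomial (Fin n) k) (f : MvPolynomial (Fin n) k) : Prop :=
  f ≠ 0 ∧ ∀ a, f ∣ br a f

/-- `δ` is the log-ozone derivation of `f`: `δ a = f⁻¹ {a, f}`. -/
def IsLogOzoneOf (br : MvPolynomial (Fin n) k → MvPolynomial (Fin n) k →
    MvPolynomial (Fin n) k) (f : MvPolynomial (Fin n) k)
    (δ : Derivation k (MvPolynomial (Fin n) k) (MvPolynomial (Fin n) k)) : Prop :=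
  ∀ a, f * δ a = br a f

/-- the log-ozone group -/
noncomputable def loz (br : MvPolynomial (Fin n) k → MvPolynomial (Fin n) k → MvPolynomial (Fin n) k) :
    AddSubgroup (Derivation k (MvPolynomial (Fin n) k) (MvPolynomial (Fin n) k)) :=
  AddSubgroup.closure {δ | ∃ f, IsPoissonNormal br f ∧ IsLogOzoneOf br f δ}

/-- the modular derivation (as a function) -/
noncomputable def modular (br : MvPolynomial (Fin n) k → MvPolynomial (Fin n) k →
    MvPolynomial (Fin n) k) (f : MvPolynomial (Fin n) k) : MvPolynomial (Fin n) k :=
  ∑ j, pderiv j (br (X j) f)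

end defs

/-- extension of a derivation to the fraction field (as in helper187's file) -/
theorem exists_derivation_extension {R A K : Type*} [CommRing R] [CommRing A] [IsDomain A]
    [Field K] [Algebra R A] [Algebra A K] [Algebra R K] [IsScalarTower R A K]
    [IsFractionRing A K] (d : Derivation R A K) :
    ∃ D : Derivation R K K, ∀ a, D (algebraMap A K a) = d a := by
  let l : Ω[A⁄R] →ₗ[A] K := d.liftKaehlerDifferential
  have h : ∀ x : nonZeroDivisors A, IsUnit (algebraMap A (Module.End A K) x) := by
    intro x
    rw [Module.End.isUnit_iff]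
    have hx : algebraMap A K x ≠ 0 :=
      IsFractionRing.to_map_ne_zero_of_mem_nonZeroDivisors x.2
    constructor
    · intro a b hab
      simp only [Module.algebraMap_end_apply, Algebra.smul_def] at hab
      exact mul_left_cancel₀ hx hab
    · intro a
      refine ⟨(algebraMap A K x)⁻¹ * a, ?_⟩
      simp only [Module.algebraMap_end_apply, Algebra.smul_def]
      field_simp
  let l' : Ω[K⁄R] →ₗ[A] K :=
    IsLocalizedModule.lift (nonZeroDivisors A) (KaehlerDifferential.map R R A K) l h
  let l'' : Ω[K⁄R] →ₗ[K] K := LinearMap.extendScalarsOfIsLocalization (nonZeroDivisors A) K l'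
  refine ⟨l''.compDer (KaehlerDifferential.D R K), fun a => ?_⟩
  have h1 : KaehlerDifferential.D R K (algebraMap A K a) =
      KaehlerDifferential.map R R A K (KaehlerDifferential.D R A a) := by
    simp
  change l' (KaehlerDifferential.D R K (algebraMap A K a)) = d a
  rw [h1]
  have := IsLocalizedModule.lift_apply (nonZeroDivisors A) (KaehlerDifferential.map R R A K) l h
    (KaehlerDifferential.D R A a)
  rw [this]
  simp [l]

theorem der_zero {R A K : Type*} [CommRing R] [CommRing A] [IsDomain A]
    [Field K] [Algebra R A] [Algebra A K] [Algebra R K] [IsScalarTower R A K]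
    [IsFractionRing A K] (E : Derivation R K K) (hE : ∀ a : A, E (algebraMap A K a) = 0) (y : K) :
    E y = 0 := by
  obtain ⟨a, b, hb, rfl⟩ := IsFractionRing.div_surjective (A := A) y
  have hb0 : algebraMap A K b ≠ 0 := IsFractionRing.to_map_ne_zero_of_mem_nonZeroDivisors hb
  have h1 : E (algebraMap A K a / algebraMap A K b * algebraMap A K b) = 0 := by
    rw [div_mul_cancel₀ _ hb0]; exact hE a
  rw [Derivation.leibniz, hE b, smul_zero, zero_add, smul_eq_mul] at h1
  exact (mul_eq_zero.mp h1).resolve_left hb0

section fin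

variable {k : Type*} [Field k] {n : ℕ} (p : ℕ) [Fact p.Prime] [CharP k p]

theorem pderiv_comm' (i j : Fin n) (a : MvPolynomial (Fin n) k) :
    pderiv i (pderiv j a) = pderiv j (pderiv i a) := by
  have h : (⁅(pderiv i : Derivation k (MvPolynomial (Fin n) k) (MvPolynomial (Fin n) k)),
      (pderiv j : Derivation k (MvPolynomial (Fin n) k) (MvPolynomial (Fin n) k))⁆ :
      Derivation k (MvPolynomial (Fin n) k) (MvPolynomial (Fin n) k)) = 0 := by
    apply MvPolynomial.derivation_ext
    intro l
    rw [Derivation.commutator_apply]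
    have hc : ∀ i j : Fin n, pderiv i (pderiv j (X l : MvPolynomial (Fin n) k)) = 0 := by
      intro i j
      classical
      by_cases h : l = j
      · subst h; simp
      · rw [pderiv_X_of_ne h, map_zero]
    rw [hc, hc]; simp
  have := congrArg (fun D => D a) h
  simp only [Derivation.commutator_apply] at this
  exact sub_eq_zero.mp this

include p in
/-- The polynomial derivations extend to the fraction field, which is finite over a field of
constants. -/
theorem setup : ∃ (C : IntermediateField k (FractionRing (MvPolynomial (Fin n) k)))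
    (d : Fin n → Derivation C (FractionRing (MvPolynomial (Fin n) k))
      (FractionRing (MvPolynomial (Fin n) k))),
    (∀ i (a : MvPolynomial (Fin n) k), d i (algebraMap (MvPolynomial (Fin n) k)
      (FractionRing (MvPolynomial (Fin n) k)) a) = algebraMap (MvPolynomial (Fin n) k)
      (FractionRing (MvPolynomial (Fin n) k)) (pderiv i a)) ∧
    (∀ i j y, d i (d j y) = d j (d i y)) ∧
    FiniteDimensional C (FractionRing (MvPolynomial (Fin n) k)) := by
  classical
  let P := MvPolynomial (Fin n) k
  let K := FractionRing P
  have hex : ∀ i : Fin n, ∃ D : Derivation k K K, ∀ a : P, D (algebraMap P K a) =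
      algebraMap P K (pderiv i a) := by
    intro i
    obtain ⟨D, hD⟩ := exists_derivation_extension (K := K)
      ((Algebra.linearMap P K).compDer (pderiv i : Derivation k P P))
    exact ⟨D, hD⟩
  choose D hD using hex
  haveI : CharP P p := inferInstance
  haveI : CharP K p := charP_of_injective_algebraMap (IsFractionRing.injective P K) p
  let C : IntermediateField k K :=
    { carrier := {y | ∀ i, D i y = 0}
      mul_mem' := by
        intro a b ha hb i
        rw [Derivation.leibniz, ha i, hb i]; simp
      add_mem' := by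
        intro a b ha hb i
        rw [map_add, ha i, hb i, add_zero]
      algebraMap_mem' := by
        intro r i
        exact (D i).map_algebraMap r
      inv_mem' := by
        intro a ha i
        rw [Derivation.leibniz_inv, ha i, smul_zero] }
  have hC : ∀ y : K, y ∈ C ↔ ∀ i, D i y = 0 := fun y => Iff.rfl
  let d : Fin n → Derivation C K K := fun i =>
    { toFun := D i
      map_add' := (D i).map_add
      map_smul' := by
        intro c y
        rw [Algebra.smul_def, Derivation.leibniz]
        have : D i (algebraMap C K c) = 0 := c.2 i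
        rw [this, smul_zero, add_zero]
        rfl
      map_one_eq_zero' := (D i).map_one_eq_zero
      leibniz' := (D i).leibniz }
  have hd : ∀ i y, d i y = D i y := fun i y => rfl
  refine ⟨C, d, ?_, ?_, ?_⟩
  · intro i a
    exact hD i a
  · intro i j y
    rw [hd, hd, hd, hd, ← sub_eq_zero, ← Derivation.commutator_apply]
    apply der_zero (A := P)
    intro a
    rw [Derivation.commutator_apply, hD, hD, hD, hD, pderiv_comm', sub_self]
  · let S : Set K := Set.range (fun i : Fin n => algebraMap P K (X i))
    have hint : ∀ x ∈ S, IsIntegral C x := by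
      rintro _ ⟨i, rfl⟩
      have hp : 0 < p := (Fact.out : p.Prime).pos
      apply IsIntegral.of_pow hp
      have hmem : (algebraMap P K (X i)) ^ p ∈ C := by
        rw [hC]
        intro j
        rw [Derivation.leibniz_pow, ← Nat.cast_smul_eq_nsmul K, CharP.cast_eq_zero, zero_smul]
      have : (algebraMap P K (X i)) ^ p = algebraMap C K ⟨_, hmem⟩ := rfl
      rw [this]
      exact isIntegral_algebraMap
    have htop : IntermediateField.adjoin C S = ⊤ := by
      rw [eq_top_iff]
      intro y _
      have hP : ∀ a : P, algebraMap P K a ∈ IntermediateField.adjoin C S := by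
        intro a
        induction a using MvPolynomial.induction_on with
        | C r =>
          have h1 : algebraMap P K (MvPolynomial.C r) = algebraMap k K r := by
            rw [IsScalarTower.algebraMap_apply k P K]; rfl
          rw [h1]
          have h2 : algebraMap k K r ∈ C := C.algebraMap_mem r
          exact (IntermediateField.adjoin C S).algebraMap_mem ⟨_, h2⟩
        | add a b ha hb => rw [map_add]; exact add_mem ha hb
        | mul_X a i ha =>
          rw [map_mul]
          exact mul_mem ha (IntermediateField.subset_adjoin _ _ ⟨i, rfl⟩)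
      obtain ⟨a, b, hb, rfl⟩ := IsFractionRing.div_surjective (A := P) y
      exact div_mem (hP a) (hP b)
    haveI : Finite S := Set.finite_range _
    have hfd : FiniteDimensional C (IntermediateField.adjoin C S) :=
      IntermediateField.finiteDimensional_adjoin hint
    rw [htop] at hfd
    exact Module.Finite.equiv (IntermediateField.topEquiv (F := C) (E := K)).toLinearEquiv

end fin

end part4

section part5

open MvPolynomial




section final

variable {k : Type*} [Field k] {n : ℕ}

/-- the derivation `{a, -}` -/
noncomputable def ham {br : MvPolynomial (Fin n) k → MvPolynomial (Fin n) k →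
    MvPolynomial (Fin n) k} (h : IsPoisson br) (a : MvPolynomial (Fin n) k) :
    Derivation k (MvPolynomial (Fin n) k) (MvPolynomial (Fin n) k) :=
  Derivation.mk' { toFun := br a
                   map_add' := h.add_right a
                   map_smul' := fun r b => h.smul_right r a b }
    (fun b c => by
      change br a (b * c) = b * br a c + c * br a b
      rw [h.leibniz]; ring)

theorem ham_apply {br : MvPolynomial (Fin n) k → MvPolynomial (Fin n) k →
    MvPolynomial (Fin n) k} (h : IsPoisson br) (a b : MvPolynomial (Fin n) k) :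
    ham h a b = br a b := rfl

theorem br_swap {br : MvPolynomial (Fin n) k → MvPolynomial (Fin n) k →
    MvPolynomial (Fin n) k} (h : IsPoisson br) (a b : MvPolynomial (Fin n) k) :
    br a b = - br b a := by
  have h1 := h.alternating (a + b)
  rw [h.add_left, h.add_right, h.add_right, h.alternating, h.alternating, zero_add, add_zero] at h1
  exact eq_neg_of_add_eq_zero_left h1

theorem br_expand {br : MvPolynomial (Fin n) k → MvPolynomial (Fin n) k →
    MvPolynomial (Fin n) k} (h : IsPoisson br) (a b : MvPolynomial (Fin n) k) :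
    br a b = ∑ s, br a (X s) * pderiv s b := by
  classical
  have h1 : ham h a = ∑ s, br a (X s) • (pderiv s : Derivation k (MvPolynomial (Fin n) k)
      (MvPolynomial (Fin n) k)) := by
    apply MvPolynomial.derivation_ext
    intro i
    rw [ham_apply]
    have h2 : (∑ s, br a (X s) • (pderiv s : Derivation k (MvPolynomial (Fin n) k)
      (MvPolynomial (Fin n) k))) (X i) = ∑ s, br a (X s) * pderiv s (X i) := by
      rw [← Derivation.coeFnAddMonoidHom_apply, map_sum, Finset.sum_apply]
      rfl
    rw [h2]
    simp [pderiv_X, Pi.single_apply]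
  have h3 := congrArg (fun D => D b) h1
  simp only [ham_apply] at h3
  rw [h3, ← Derivation.coeFnAddMonoidHom_apply, map_sum, Finset.sum_apply]
  rfl

/-- the modular derivation as a derivation -/
noncomputable def modDer {br : MvPolynomial (Fin n) k → MvPolynomial (Fin n) k →
    MvPolynomial (Fin n) k} (h : IsPoisson br) :
    Derivation k (MvPolynomial (Fin n) k) (MvPolynomial (Fin n) k) :=
  Derivation.mk' { toFun := modular br
                   map_add' := fun a b => by
                    simp only [modular, h.add_right, map_add, Finset.sum_add_distrib]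
                   map_smul' := fun r b => by
                    simp only [modular, h.smul_right, Derivation.map_smul, Finset.smul_sum,
                      RingHom.id_apply] }
    (fun b c => by
      change modular br (b * c) = b * modular br c + c * modular br b
      have h1 : ∑ s, br (X s) b * pderiv s c = - br b c := by
        rw [br_expand h b c, ← Finset.sum_neg_distrib]
        refine Finset.sum_congr rfl fun s _ => ?_
        rw [br_swap h b (X s)]; ring
      have h2 : ∑ s, br (X s) c * pderiv s b = - br c b := by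
        rw [br_expand h c b, ← Finset.sum_neg_distrib]
        refine Finset.sum_congr rfl fun s _ => ?_
        rw [br_swap h c (X s)]; ring
      have h3 : modular br (b * c) = b * modular br c + c * modular br b +
          (∑ s, br (X s) b * pderiv s c + ∑ s, br (X s) c * pderiv s b) := by
        simp only [modular, Finset.mul_sum, ← Finset.sum_add_distrib]
        refine Finset.sum_congr rfl fun s _ => ?_
        rw [h.leibniz, map_add, Derivation.leibniz, Derivation.leibniz]
        simp only [smul_eq_mul]
        ring
      rw [h3, h1, h2, br_swap h b c]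
      ring)

theorem modDer_apply {br : MvPolynomial (Fin n) k → MvPolynomial (Fin n) k →
    MvPolynomial (Fin n) k} (h : IsPoisson br) (a : MvPolynomial (Fin n) k) :
    modDer h a = modular br a := rfl

/-- **Main theorem.** Over a field of positive characteristic the modular derivation of every
polynomial Poisson algebra is the log-ozone derivation of one Poisson normal element; in
particular it lies in the log-ozone group. -/
theorem result {k : Type*} [Field k] (p : ℕ) [Fact p.Prime] [CharP k p] (n : ℕ)
    (br : MvPolynomial (Fin n) k → MvPolynomial (Fin n) k → MvPolynomial (Fin n) k)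
    (h : IsPoisson br) :
    ∃ φ : Derivation k (MvPolynomial (Fin n) k) (MvPolynomial (Fin n) k),
      (∀ f, φ f = modular br f) ∧ φ ∈ loz br ∧
      ∃ f, IsPoissonNormal br f ∧ IsLogOzoneOf br f φ := by
  classical
  let P := MvPolynomial (Fin n) k
  let K := FractionRing P
  obtain ⟨C, d, hd, hcomm, hfd⟩ := setup (k := k) (n := n) p
  let ι : P →+* K := algebraMap P K
  have hι : ∀ i (a : P), d i (ι a) = ι (pderiv i a) := hd
  let G : Fin n → Fin n → K := fun i j => ι (br (X i) (X j))
  have hDG : ∀ l (q : P), DD d (G l) (ι q) = ι (br (X l) q) := by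
    intro l q
    rw [DD_apply, br_expand h (X l) q, map_sum]
    refine Finset.sum_congr rfl fun s _ => ?_
    rw [hι, map_mul]
  obtain ⟨f, hf0, hf⟩ := core d hcomm G
    (fun i => by
      change ι (br (X i) (X i)) = 0
      rw [h.alternating, map_zero])
    (fun i j => by
      change ι (br (X i) (X j)) = - ι (br (X j) (X i))
      rw [br_swap h, map_neg])
    (fun l i j => by
      rw [hDG, hDG, hDG, ← map_add, ← map_add, h.jacobi, map_zero])
  obtain ⟨a, b, hb, rfl⟩ := IsFractionRing.div_surjective (A := P) f
  have hb0 : ι b ≠ 0 := IsFractionRing.to_map_ne_zero_of_mem_nonZeroDivisors hb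
  haveI : CharP P p := inferInstance
  haveI : CharP K p := charP_of_injective_algebraMap (IsFractionRing.injective P K) p
  have hp : p ≠ 0 := (Fact.out : p.Prime).ne_zero
  set F : P := a * b ^ (p - 1) with hF
  have hιF : ι F = ι a / ι b * (ι b) ^ p := by
    have h1 : (ι b) ^ p = (ι b) ^ (p - 1) * ι b := by
      rw [← pow_succ, Nat.sub_add_cancel (Nat.one_le_iff_ne_zero.mpr hp)]
    rw [hF, map_mul, map_pow, h1, div_mul_eq_mul_div, eq_div_iff hb0]
    ring
  have hF0 : F ≠ 0 := by
    intro h0
    have h1 : ι F = 0 := by rw [h0, map_zero]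
    rw [hιF] at h1
    exact (mul_ne_zero hf0 (pow_ne_zero _ hb0)) h1
  have hXl : ∀ l, br (X l) F = modular br (X l) * F := by
    intro l
    have hinj : Function.Injective ι := IsFractionRing.injective P K
    apply hinj
    rw [← hDG, hιF, Derivation.leibniz, Derivation.leibniz_pow, ← Nat.cast_smul_eq_nsmul K,
      CharP.cast_eq_zero, zero_smul, smul_zero, zero_add, smul_eq_mul]
    have h1 := hf l
    have h2 : -(∑ s, d s (G l s)) = ι (modular br (X l)) := by
      rw [modular, map_sum, ← Finset.sum_neg_distrib]
      refine Finset.sum_congr rfl fun s _ => ?_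
      change - d s (ι (br (X l) (X s))) = ι (pderiv s (br (X s) (X l)))
      rw [hι, br_swap h (X s) (X l), map_neg, map_neg]
    rw [h2] at h1
    rw [map_mul, hιF]
    change (ι b) ^ p * DD d (G l) (ι a / ι b) = _
    have h1' : DD d (G l) (ι a / ι b) = ι (modular br (X l)) * (ι a / ι b) := h1
    rw [h1']
    ring
  have hall : ∀ a, br a F = modular br a * F := by
    intro a
    have h1 : - ham h F = F • modDer h := by
      apply MvPolynomial.derivation_ext
      intro l
      rw [Derivation.neg_apply, Derivation.smul_apply, ham_apply, modDer_apply, smul_eq_mul,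
        ← br_swap h, hXl, mul_comm]
    have h2 := congrArg (fun D => D a) h1
    simp only [Derivation.neg_apply, Derivation.smul_apply, ham_apply, modDer_apply,
      smul_eq_mul] at h2
    rw [br_swap h, h2, mul_comm]
  have hnorm : IsPoissonNormal br F := ⟨hF0, fun a => ⟨modular br a, by rw [hall, mul_comm]⟩⟩
  have hlog : IsLogOzoneOf br F (modDer h) := fun a => by rw [hall, modDer_apply, mul_comm]
  exact ⟨modDer h, fun f => rfl, AddSubgroup.subset_closure ⟨F, hnorm, hlog⟩, F, hnorm, hlog⟩

end final

end part5

end Pool.Agent.Results.MP_c5669f_al.ModularLogOzone
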